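import Pool.Agent.helper80.SV.Spec

set_option autoImplicit false
set_option linter.unusedSectionVars false

namespace Pool.Agent.SV

open MvPolynomial Module

variable {ι κ : Type} [Fintype ι] [DecidableEq ι] [Fintype κ] [DecidableEq κ]

theorem HSB_mul {c : ι → κ} {B : Finset ι} {d d' : κ → ℕ} {f g : MvPolynomial ι ℂ}
    (hf : f ∈ Sec c B d) (hg : g ∈ Sec c B d') : f * g ∈ Sec c B (d + d') := by
  rw [mem_Sec] at *
  intro m hm
  rw [coeff_mul] at hm
  obtain ⟨⟨a, b⟩, hab, h⟩ := Finset.exists_ne_zero_of_sum_ne_zero hm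
  rw [Finset.HasAntidiagonal.mem_antidiagonal] at hab
  simp only at hab h
  obtain ⟨a1, a2⟩ := hf a (left_ne_zero_of_mul h)
  obtain ⟨b1, b2⟩ := hg b (right_ne_zero_of_mul h)
  subst hab
  refine ⟨fun i hi => ?_, fun k => ?_⟩
  · rw [Finsupp.add_apply, a1 i hi, b1 i hi]
  · simp only [Finsupp.add_apply, Finset.sum_add_distrib, a2 k, b2 k, Pi.add_apply]

theorem HSB_C (c : ι → κ) (B : Finset ι) (r : ℂ) : (C r : MvPolynomial ι ℂ) ∈ Sec c B 0 := by
  rw [mem_Sec]
  intro m hm
  rw [coeff_C] at hm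
  have h : (0 : ι →₀ ℕ) = m := by
    by_contra h
    rw [if_neg h] at hm
    exact hm rfl
  subst h
  exact ⟨fun i _ => rfl, fun k => by simp⟩

theorem HSB_X (c : ι → κ) (B : Finset ι) (i : ι) (hi : i ∈ B) :
    (X i : MvPolynomial ι ℂ) ∈ Sec c B (Pi.single (c i) 1) := by
  rw [mem_Sec]
  intro m hm
  rw [coeff_X] at hm
  have h : Finsupp.single i 1 = m := by
    by_contra h
    rw [if_neg h] at hm
    exact hm rfl
  subst h
  refine ⟨fun j hj => ?_, fun k => ?_⟩
  · rw [Finsupp.single_apply, if_neg]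
    rintro rfl
    exact hj hi
  · simp only [Finsupp.single_apply, Finset.sum_ite_eq, Finset.mem_filter, Finset.mem_univ,
      true_and, Pi.single_apply]
    by_cases h : c i = k
    · rw [if_pos h, if_pos h.symm]
    · rw [if_neg h, if_neg (Ne.symm h)]

theorem HSB_CX (c : ι → κ) (B : Finset ι) (i : ι) (hi : i ∈ B) (k : κ) (hk : c i = k) (r : ℂ) :
    (C r * X i : MvPolynomial ι ℂ) ∈ Sec c B (Pi.single k 1) := by
  subst hk
  have := HSB_mul (HSB_C c B r) (HSB_X c B i hi)
  rwa [zero_add] at this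

theorem HSB_phi (c : ι → κ) (A B : Finset ι) (hAB : A ⊆ B) (L w : ι → ℂ) (t : ℂ) (i : ι)
    (hi : i ∈ B) : hsub c A L w t i ∈ Sec c B (Pi.single (c i) 1) := by
  unfold hsub
  split_ifs with h
  · refine Submodule.add_mem _ (HSB_CX c B i hi _ rfl _) ?_
    have h1 : (∑ j ∈ A.filter (fun j => c j = c i), C (L j) * X j : MvPolynomial ι ℂ) ∈
        Sec c B (Pi.single (c i) 1) := by
      refine Submodule.sum_mem _ fun j hj => ?_
      rw [Finset.mem_filter] at hj
      exact HSB_CX c B j (hAB hj.1) _ hj.2 _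
    have := HSB_mul (HSB_C c B (t * w i)) h1
    rwa [zero_add] at this
  · exact HSB_X c B i hi

theorem HSB_pow {c : ι → κ} {B : Finset ι} {d : κ → ℕ} {f : MvPolynomial ι ℂ}
    (hf : f ∈ Sec c B d) (n : ℕ) : f ^ n ∈ Sec c B (n • d) := by
  induction n with
  | zero =>
    rw [pow_zero, zero_smul, ← C_1]
    exact HSB_C c B 1
  | succ n ih =>
    rw [pow_succ, succ_nsmul]
    exact HSB_mul ih hf

theorem HSB_prod {c : ι → κ} {B : Finset ι} (φ : ι → MvPolynomial ι ℂ) (m : ι → ℕ)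
    (hφ : ∀ i ∈ B, φ i ∈ Sec c B (Pi.single (c i) 1)) (s : Finset ι) (hs : s ⊆ B) :
    ∏ i ∈ s, φ i ^ m i ∈ Sec c B (∑ i ∈ s, m i • Pi.single (c i) 1) := by
  induction s using Finset.induction_on with
  | empty =>
    rw [Finset.prod_empty, Finset.sum_empty, ← C_1]
    exact HSB_C c B 1
  | insert a s ha ih =>
    rw [Finset.prod_insert ha, Finset.sum_insert ha]
    exact HSB_mul (HSB_pow (hφ a (hs (Finset.mem_insert_self a s))) (m a))
      (ih fun i hi => hs (Finset.mem_insert_of_mem hi))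

theorem HSB : HSB_stmt := by
  intro ι κ _ _ _ _ c A B d hAB L w t f hf
  rw [f.as_sum, map_sum]
  refine Submodule.sum_mem _ fun m hm => ?_
  have hm' : m ∈ Mon c B d := mem_Sec.mp hf m (MvPolynomial.mem_support_iff.mp hm)
  rw [bind₁_monomial]
  have hsB : m.support ⊆ B := by
    intro i hi
    by_contra h
    exact (Finsupp.mem_support_iff.mp hi) (hm'.1 i h)
  have h1 := HSB_prod (fun i => hsub c A L w t i) (fun i => m i)
    (fun i hi => HSB_phi c A B hAB L w t i hi) m.support hsB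
  have h2 := HSB_mul (HSB_C c B (coeff m f)) h1
  have h3 : (0 + ∑ i ∈ m.support, m i • (Pi.single (c i) 1 : κ → ℕ)) = d := by
    rw [zero_add]
    funext k
    rw [← hm'.2 k, Finset.sum_apply]
    simp only [Pi.smul_apply, Pi.single_apply, smul_eq_mul, mul_ite, mul_one, mul_zero]
    rw [← Finset.sum_filter, ← Finset.sum_filter_ne_zero]
    symm
    rw [← Finset.sum_filter_ne_zero]
    refine Finset.sum_congr ?_ fun _ _ => rfl
    ext i
    simp only [Finset.mem_filter, Finset.mem_univ, true_and, Finsupp.mem_support_iff]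
    constructor
    · rintro ⟨h4, h5⟩
      exact ⟨⟨h5, h4.symm⟩, h5⟩
    · rintro ⟨⟨-, h4⟩, h5⟩
      exact ⟨h4.symm, h5⟩
  rwa [h3] at h2

end Pool.Agent.SV
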